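import Pool.Agent.MP_82452b_an.H8.RT

/-!
# Patching local implementing unitaries
-/

namespace Pool.Agent.MP_82452b_an.H8

open Filter Topology Pool.Agent.MP_755d6b_an.H98
open scoped InnerProductSpace Classical

variable {G : Type} [Group G] {S : L2 G →L[ℂ] L2 G}

namespace Patch

theorem rho_comm {w : L2 G →L[ℂ] L2 G} (hw : w ∈ LG G) (g : G) (ξ : L2 G) :
    rho g (w ξ) = w (rho g ξ) := by
  rw [← mul_apply_eq_comp, mem_LG.1 hw g, mul_apply_eq_comp]

omit [Group G] in
theorem ind_of_supp {ξ : L2 G} {D : Set G} (h : Supp ξ D) : ind D ξ = ξ :=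
  L2.ext (funext fun x => by
    rw [ind_apply]
    split_ifs with hx
    · rfl
    · by_contra h0
      exact hx (h x fun h1 => h0 h1.symm))

omit [Group G] in
theorem ind_ind {D E : Set G} (h : D ⊆ E) (ξ : L2 G) : ind D (ind E ξ) = ind D ξ :=
  L2.ext (funext fun x => by
    simp only [ind_apply]
    split_ifs with h1 h2
    · rfl
    · exact absurd (h h1) h2
    · rfl)

theorem ind_comm {w : L2 G →L[ℂ] L2 G} (hw : w ∈ LG G) {Γ : Subgroup G}
    (hs : Supp (w (dl 1)) Γ) : ind (Γ : Set G) * w = w * ind (Γ : Set G) := by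
  refine op_ext_dl fun q => ?_
  have e : ∀ x, w (dl q) x = w (dl 1) (x * q⁻¹) := fun x => by
    rw [← rho_apply, rho_comm hw, rho_dl, one_mul, inv_inv]
  rw [mul_apply_eq_comp, mul_apply_eq_comp]
  by_cases hq : q ∈ Γ
  · rw [ind_of_supp (ξ := dl q) (fun x hx => by
      rw [dl_apply] at hx
      split_ifs at hx with h1
      · exact h1 ▸ hq
      · exact absurd rfl hx)]
    refine ind_of_supp fun x hx => ?_
    rw [e] at hx
    simpa using Γ.mul_mem (hs _ hx) hq
  · have : ind (Γ : Set G) (dl q) = 0 := L2.ext (funext fun x => by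
      rw [ind_apply, dl_apply, L2.zero_apply]
      split_ifs with h1 h2
      · exact absurd (h2 ▸ h1) hq
      · rfl
      · rfl)
    rw [this, map_zero]
    refine L2.ext (funext fun x => ?_)
    rw [ind_apply, L2.zero_apply]
    split_ifs with h1
    · by_contra h0
      rw [e] at h0
      apply hq
      simpa using Γ.mul_mem (Γ.inv_mem (hs _ h0)) h1
    · rfl

omit [Group G] in
theorem norm_unitary {w : L2 G →L[ℂ] L2 G} (h : star w * w = 1) (ξ : L2 G) : ‖w ξ‖ = ‖ξ‖ := by
  rw [norm_eq_sqrt_re_inner (𝕜 := ℂ), ← inner_apply_star, ← mul_apply_eq_comp, h,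
    one_apply_eq_self, ← norm_eq_sqrt_re_inner]

theorem fix_vec {w : L2 G →L[ℂ] L2 G} (hw : w ∈ LG G) {g : G}
    (hg : S * lam g * S * w = w * lam g) :
    (S * lam g * S * rho g) (w (dl 1)) = w (dl 1) := by
  rw [mul_apply_eq_comp, rho_comm hw, ← mul_apply_eq_comp, hg, mul_apply_eq_comp, rho_dl, lam_dl,
    one_mul, mul_inv_cancel]

/-- An invariant vector restricts to a multiple of the vector of the local unitary. -/
theorem key {Γ : Subgroup G} (hicc : Icc Γ)
    {w : L2 G →L[ℂ] L2 G} (hw : w ∈ LG G) (h1 : star w * w = 1) (h2 : w * star w = 1)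
    (hs : Supp (w (dl 1)) Γ) (hg : ∀ g ∈ Γ, S * lam g * S * w = w * lam g) {η : L2 G}
    (hη : ∀ g ∈ Γ, (S * lam g * S * rho g) η = η) :
    ∃ c : ℂ, ind (Γ : Set G) η = c • w (dl 1) := by
  have inv : ∀ g ∈ Γ, cj g (star w η) = star w η := by
    intro g hgΓ
    have e : lam g * star w = star w * (S * lam g * S) := by
      calc lam g * star w = star w * (w * lam g) * star w := by
            rw [← mul_assoc, h1, one_mul]
        _ = star w * (S * lam g * S) * (w * star w) := by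
            rw [← hg g hgΓ]; simp only [mul_assoc]
        _ = _ := by rw [h2, mul_one]
    rw [cj, mul_apply_eq_comp, rho_comm (star_mem hw), ← mul_apply_eq_comp, e, mul_apply_eq_comp,
      ← mul_apply_eq_comp (S * lam g * S), hη g hgΓ]
  have one : ∀ q ∈ Γ, star w η q ≠ 0 → q = 1 := by
    intro q hq h0
    by_contra hne
    refine hicc q hq hne ((finite_le_norm (star w η) (norm_pos_iff.2 h0)).subset ?_)
    rintro _ ⟨g, hgΓ, rfl⟩
    rw [Set.mem_ofPred_eq, ← cj_apply, inv g hgΓ]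
  have e : ind (Γ : Set G) (star w η) = star w η 1 • dl 1 := L2.ext (funext fun x => by
    rw [ind_apply, L2.smul_apply, dl_apply]
    by_cases hx : x = 1
    · subst hx; simp
    · rw [if_neg hx, mul_zero]
      split_ifs with h3
      · by_contra h0
        exact hx (one x h3 h0)
      · rfl)
  refine ⟨star w η 1, ?_⟩
  rw [← map_smul, ← e, ← mul_apply_eq_comp, ← ind_comm hw hs, mul_apply_eq_comp,
    ← mul_apply_eq_comp w, h2, one_apply_eq_self]

omit [Group G] in
theorem exists_large {ξ : L2 G} (h1 : ‖ξ‖ = 1) {D : ℕ → Set G} (hD : Monotone D)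
    (hs : ∀ x, ξ x ≠ 0 → ∃ n, x ∈ D n) : ∃ n, 9 / 10 < ‖ind (D n) ξ‖ := by
  have h2 := (hasSum_sq ξ).eventually (lt_mem_nhds (show (9 / 10 : ℝ) ^ 2 < ‖ξ‖ ^ 2 by
    rw [h1]; norm_num))
  obtain ⟨s, hs1⟩ := h2.exists
  have : ∀ x, ∃ n, ξ x ≠ 0 → x ∈ D n := fun x => by
    by_cases h : ξ x = 0
    · exact ⟨0, fun h' => absurd h h'⟩
    · exact (hs x h).imp fun _ a _ => a
  choose n hn using this
  refine ⟨s.sup n, ?_⟩
  have h3 := sum_le_hasSum s (fun _ _ => sq_nonneg _) (hasSum_sq (ind (D (s.sup n)) ξ))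
  have h4 : ∑ x ∈ s, ‖ind (D (s.sup n)) ξ x‖ ^ 2 = ∑ x ∈ s, ‖ξ x‖ ^ 2 := by
    refine Finset.sum_congr rfl fun x hx => ?_
    rw [ind_apply]
    split_ifs with h5
    · rfl
    · have : ξ x = 0 := by
        by_contra h0
        exact h5 (hD (Finset.le_sup (f := n) hx) (hn x h0))
      rw [this]
  rw [h4] at h3
  exact lt_of_pow_lt_pow_left₀ 2 (norm_nonneg _) (lt_of_lt_of_le hs1 h3)

end Patch

open Patch in
/-- MODULE P: patching local unitaries. -/
theorem RT.patch (h : RT S) {ι : Type} [Preorder ι] [Nonempty ι] (Γ : ι → Subgroup G)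
    (hmono : Monotone Γ) (hcover : ∀ (A : Set G), A.Countable → ∀ i, ∃ j, i ≤ j ∧ A ⊆ Γ j)
    (hchain : ∀ f : ℕ → ι, Monotone f → ∃ j, (∀ n, f n ≤ j) ∧ ∀ g ∈ Γ j, ∃ n, g ∈ Γ (f n))
    (hret : ∀ i, ∃ κ, Retr κ (Γ i)) (hicc : ∀ i, Icc (Γ i)) (hinv : ∀ i, Inv S (Γ i))
    (hloc : ∀ i, InnerOn S (Γ i)) :
    ∃ w ∈ LG G, star w * w = 1 ∧ w * star w = 1 ∧ ∀ y ∈ LG G, S * y * S = w * y * star w := by
  have _ := hinv
  choose w hw h1 h2 hs hg using hloc
  have _ := hret
  have n1 : ∀ i, ‖w i (dl 1)‖ = 1 := fun i => by rw [norm_unitary (h1 i), norm_dl]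
  have K : ∀ i (η : L2 G), (∀ g ∈ Γ i, (S * lam g * S * rho g) η = η) →
      ∃ c : ℂ, ind (Γ i : Set G) η = c • w i (dl 1) := fun i η hη =>
    key (hicc i) (hw i) (h1 i) (h2 i) (hs i) (hg i) hη
  have K2 : ∀ i j, i ≤ j → ∃ c : ℂ, ind (Γ i : Set G) (w j (dl 1)) = c • w i (dl 1) :=
    fun i j hij => K i _ fun g hgi => fix_vec (hw j) (hg j g (hmono hij hgi))
  have anti : ∀ i j k, i ≤ j → j ≤ k →
      ‖ind (Γ i : Set G) (w k (dl 1))‖ ≤ ‖ind (Γ i : Set G) (w j (dl 1))‖ := by
    intro i j k hij hjk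
    obtain ⟨c, hc⟩ := K2 j k hjk
    have c1 : ‖c‖ ≤ 1 := by
      have := norm_ind_le (Γ j : Set G) (w k (dl 1))
      rwa [hc, norm_smul, n1, n1, mul_one] at this
    rw [← ind_ind (D := (Γ i : Set G)) (E := (Γ j : Set G)) (fun _ hx => hmono hij hx)
      (w k (dl 1)), hc, map_smul, norm_smul]
    exact mul_le_of_le_one_left (norm_nonneg _) c1
  obtain ⟨i0, hi0⟩ : ∃ i0, ∀ j, i0 ≤ j → 9 / 10 < ‖ind (Γ i0 : Set G) (w j (dl 1))‖ := by
    by_contra hc
    push Not at hc
    choose nx hn1 hn2 using hc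
    let f : ℕ → ι := fun n => nx^[n] (Classical.arbitrary ι)
    have fs : ∀ n, f (n + 1) = nx (f n) := fun n => Function.iterate_succ_apply' _ _ _
    have fm : Monotone f := monotone_nat_of_le_succ fun n => by rw [fs]; exact hn1 _
    obtain ⟨j, hj1, hj2⟩ := hchain f fm
    obtain ⟨n, hn⟩ := exists_large (n1 j) (D := fun n => (Γ (f n) : Set G))
      (fun a b hab => hmono (fm hab)) (fun x hx => hj2 x (hs j x hx))
    have a1 := anti (f n) (f (n + 1)) j (fm (Nat.le_succ n)) (hj1 _)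
    have a2 := hn2 (f n)
    rw [← fs] at a2
    linarith
  have umem : ∀ g : G, S * lam g * S ∈ LG G := fun g => h.mem _ (lam_mem g)
  have hiso : ∀ (g : G) ξ, ‖(S * lam g * S * rho g) ξ‖ = ‖ξ‖ := fun g ξ => by
    simp only [mul_apply_eq_comp, h.norm_apply, norm_lam, norm_rho]
  obtain ⟨η, hη1, hη2⟩ := exists_invariant_near (fun g : G => S * lam g * S * rho g)
    (fun g k ξ => by
      rw [h.u_mul, rho_mul, mul_apply_eq_comp, mul_apply_eq_comp (S * lam g * S),
        mul_apply_eq_comp (rho g), mul_apply_eq_comp (S * lam g * S) (rho g),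
        mul_apply_eq_comp (S * lam k * S) (rho k), rho_comm (umem k)])
    hiso (fun ξ => by
      rw [lam_one, rho_one, mul_one, mul_one, h.sq, one_apply_eq_self])
    (w i0 (dl 1)) (9 / 10) (fun g => by
      obtain ⟨j, hj1, hj2⟩ := hcover {g} (Set.countable_singleton g) i0
      obtain ⟨c, hc⟩ := K2 i0 j hj1
      have c1 := hi0 j hj1
      rw [hc, norm_smul, n1, mul_one] at c1
      have c2 : ⟪w i0 (dl 1), w j (dl 1)⟫_ℂ = c := by
        rw [← ind_of_supp (hs i0), ← star_ind, inner_star_apply, hc, inner_smul_right,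
          inner_self_eq_norm_sq_to_K, n1]
        simp
      have c3 : ‖⟪w j (dl 1), w i0 (dl 1)⟫_ℂ‖ = ‖c‖ := by rw [norm_inner_symm, c2]
      have c4 := norm_sub_inner_smul_sq (n1 j) (w i0 (dl 1)) ⟪w j (dl 1), w i0 (dl 1)⟫_ℂ
      rw [n1, c3, sub_self, norm_zero] at c4
      set p := ⟪w j (dl 1), w i0 (dl 1)⟫_ℂ • w j (dl 1) with hp
      have c5 : ‖w i0 (dl 1) - p‖ ≤ 9 / 20 :=
        le_of_pow_le_pow_left₀ two_ne_zero (by norm_num) (by rw [c4]; nlinarith)
      have c6 : (S * lam g * S * rho g) p = p := by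
        rw [hp, map_smul, fix_vec (hw j) (hg j g (hj2 rfl))]
      have c7 : (S * lam g * S * rho g) (w i0 (dl 1)) - w i0 (dl 1) =
          (S * lam g * S * rho g) (w i0 (dl 1) - p) - (w i0 (dl 1) - p) := by
        rw [map_sub, c6]; abel
      rw [c7]
      have := norm_sub_le ((S * lam g * S * rho g) (w i0 (dl 1) - p)) (w i0 (dl 1) - p)
      rw [hiso] at this
      linarith)
  obtain ⟨j, -, hj⟩ := hcover _ (countable_supp η) i0
  obtain ⟨c, hc⟩ := K j η fun g _ => hη1 g
  rw [ind_of_supp (ξ := η) (fun q hq => hj hq)] at hc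
  have c0 : c ≠ 0 := by
    rintro rfl
    rw [hc, zero_smul, zero_sub, norm_neg, n1] at hη2
    norm_num at hη2
  have all : ∀ g : G, S * lam g * S = w j * lam g * star (w j) := by
    intro g
    have e1 : (S * lam g * S * rho g) (w j (dl 1)) = w j (dl 1) := by
      have := hη1 g
      rw [hc, map_smul] at this
      exact smul_right_injective _ c0 this
    have e2 : S * lam g * S * w j * lam g⁻¹ - w j = 0 := by
      refine isTV_LG.sep _ (sub_mem (mul_mem (mul_mem (umem g) (hw j)) (lam_mem _)) (hw j)) ?_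
      rw [sub_apply, sub_eq_zero]
      refine Eq.trans ?_ e1
      rw [mul_apply_eq_comp, mul_apply_eq_comp, mul_apply_eq_comp (S * lam g * S) (rho g),
        rho_comm (hw j), rho_dl, lam_dl, one_mul, mul_one]
    rw [sub_eq_zero] at e2
    calc S * lam g * S = S * lam g * S * (w j * (lam g⁻¹ * lam g) * star (w j)) := by
          rw [lam_inv_mul, mul_one, h2, mul_one]
      _ = (S * lam g * S * w j * lam g⁻¹) * lam g * star (w j) := by simp only [mul_assoc]
      _ = _ := by rw [e2]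
  refine ⟨w j, hw j, h1 j, h2 j, fun y hy => sub_eq_zero.1 (isTV_LG.sep _
    (sub_mem (h.mem y hy) (mul_mem (mul_mem (hw j) hy) (star_mem (hw j)))) ?_)⟩
  rw [← h.apply_apply ((S * y * S - w j * y * star (w j)) (dl 1))]
  have : S ((S * y * S - w j * y * star (w j)) (dl 1)) = 0 := by
    refine eq_zero_of_inner_dl fun g => ?_
    rw [← inner_conj_symm, map_eq_zero, ← h.inner_left, sub_apply,
      inner_sub_right, sub_eq_zero]
    have l1 : ⟪S (dl g), (S * y * S) (dl 1)⟫_ℂ = ⟪dl 1, (star (lam g) * y) (dl 1)⟫_ℂ := by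
      rw [mul_apply_eq_comp, mul_apply_eq_comp, h.fix, h.inner_left, h.apply_apply,
        mul_apply_eq_comp, inner_apply_star, lam_dl, mul_one]
    have l2 := isTV_LG.tr (w j) (hw j) (star (lam g) * y * star (w j))
      (mul_mem (mul_mem (star_mem (lam_mem g)) hy) (star_mem (hw j)))
    rw [← mul_apply_eq_comp (star (lam g) * y * star (w j)), mul_assoc (star (lam g) * y), h1,
      mul_one] at l2
    rw [l1, ← l2, ← h.u_dl, all g, ← star_star (w j * lam g * star (w j)), inner_star_apply,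
      ← mul_apply_eq_comp, ← mul_apply_eq_comp]
    congr 2
    simp only [star_mul, star_star, mul_assoc]
    rw [← mul_assoc (star (w j)) (w j), h1, one_mul]
  rw [this, map_zero]

end Pool.Agent.MP_82452b_an.H8
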